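import Mathlib
import Pool.Agent.Helper83.BO.Main

/-!
# Q1 for blow-ups of projective spaces, one group for every scheme, gives all schemes in all negative weights

The definitions are in `Pool/Agent/Helper83/BO/Defs.lean`, which extends `Pool/Agent/Helper83/AS/Defs.lean`
and uses `Pool/Agent/Helper83/OD/Defs.lean`. The schemes are Mathlib's schemes. `T.BM X m j` is the étale motivic
Borel-Moore homology `H_j(X_et, ℤᶜ(-m))` of a separated scheme `X` of finite type over `ℤ`, and `T.H X d n i` is
`Hⁱ(X_et, ℤ(n))`, for `X` regular of dimension `d ≤ n`. `Arithmetic X d` is the class of Q1.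

Proof of (1). Let `C ⊂ ℙ^M` be regular of dimension `c`, of codimension at least two, and let `Y` be the blow-up
of `ℙ^M` along `C`. Then `H_{c-2}(C_et, ℤᶜ(-1)) = Hᶜ⁺²(C_et, ℤ(c + 1))` is a summand of the third term of an exact
sequence whose second term is `H_c(Y_et, ℤᶜ(0)) = H²ᵈ⁻ᶜ(Y_et, ℤ(d))`, `d = dim Y = M + 1`. Assume that these groups of
all `C` are finitely generated; so `H_j(X_et, ℤᶜ(-1))` is finitely generated for all regular proper `X` of the
dimension `j + 2`, and in the lower dimensions too, since this group is a summand of `H_j(ℙ^N × X)`. We show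
the same for all `X` of dimension `d ≥ j + 3` by induction on `d`; by an alteration we may assume that `X` is a
scheme over the Gaussian integers. Let `A = H_j(X)`, and for a nonempty affine open subscheme `V` let `A(V)` be
the kernel of the restriction to `H_j(V)`. By Artin vanishing `A / A(V)` is torsion free, and `A` is the union of
the `A(V)`; since `A / 2 A` is finite, Nakayama's lemma shows that `A` is finitely generated if all `A(V)` are.
Let `X' ⟶ X` be an alteration such that the preimage of `X ∖ V` is in a divisor `E` with strict normal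
crossings, and let `Y` be an ample regular divisor on `X'` which meets all strata of `E` transversally. By
induction the groups `H_q(S ∖ Y)`, `S` a stratum of dimension `e`, are finitely generated for `q ≤ e - 2`, and
they are divisible by Artin vanishing, so they are zero. It follows that `H_j(E ∖ Y)` is a torsion group. The
pull-back of an element of `A(V)` comes from `E`, so its restriction to `X' ∖ Y` is torsion, so it is zero by
Artin vanishing, and the pull-back comes from `H_j(Y)`, which is finitely generated by induction. The weights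
`-m < -1` follow by the projective bundle formula.

Proof of (2). Let `Z ⊂ ℙ^M` be regular and `t = 2 m + j ≥ 0`. The group `H_j(Z_et, ℤᶜ(-m))` is a summand of the
second term of the exact sequence of the blow-up `Y` of `ℙ^M` along `Z` whose third term is
`H_t(Y_et, ℤᶜ(0)) = H²ᵈ⁻ᵗ(Y_et, ℤ(d))`, `d = M + 1`: the number `t` does not depend on `M`. This gives all regular
projective schemes. For an arbitrary `X` we use Noetherian induction and the localization sequence:
some nonempty open subscheme of `X` is irreducible, and by de Jong a nonempty open subscheme `U` of its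
reduced scheme has a finite flat cover `V` of some degree `N` which is open in a regular projective `Y`;
since `dim (Y ∖ V) < dim Y`, the groups of `V` are finitely generated; the kernel of the pull-back from `U` to
`V` is killed by `N`, so it is finite. In the degrees `j > 2 dim X` the groups are rational vector spaces.
-/

set_option autoImplicit false

open CategoryTheory AlgebraicGeometry

namespace Pool.Agent.Helper90.JC.AllSchemesFull

open Pool.Agent.Helper83.BO

open Pool.Agent.Helper83.AS (FiniteType Arithmetic IsProjective Rational product)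

universe v

/-- Let `R` be a set of pairs `(d, t)` such that for every `t` there are infinitely many `d` with `R d t`, for
example `t = f d`, one `t` for every `d`. `T.Sample R Y d` is Q1 for `Y`, `d = dim Y`, for the groups
`H²ᵈ⁻ᵗ(Y_et, ℤ(d))` with `R d t`, `0 ≤ t ≤ 2 d`, only.

(1) The following conditions are equivalent: for all blow-ups `Y` of projective spaces over `ℤ` along one
regular connected centre `C`, `c = dim C`, `d = dim Y`, the one group `H²ᵈ⁻ᶜ(Y_et, ℤ(d))` is finitely generated;
`T.Sample R Y d` for all these schemes `Y`; Q1 for all these schemes `Y`; for all regular connected projective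
`C` the one group `Hᶜ⁺²(C_et, ℤ(c + 1))`, `c = dim C`, is finitely generated; for all separated schemes `X` of
finite type over `ℤ` all groups `H_j(X_et, ℤᶜ(-m))`, `m ≥ 1`, are finitely generated (and zero for
`j > 2 dim X`).

(2) For every regular connected projective `Z`: `T.Sample R Y d` for all blow-ups `Y` of the projective spaces
over `ℤ` along subschemes isomorphic to `Z` if and only if all groups `H_j(Z_et, ℤᶜ(-m))`, `m ≥ 1`, are finitely
generated (and zero for `j > 2 dim Z`). For every `D`: the second and the last condition of (1) are equivalent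
for centres of dimension at most `D` and for `X` of dimension at most `D`.

(3) For every regular connected proper `X`: `T.Sample R` for all products `ℙ^N × X` if and only if
`Hⁱ(X_et, ℤ(n))` is finitely generated for `i ≤ 2 n` and zero for `i < 0`, for all `n ≥ dim X`.

(4) If Q1 holds, then the conditions of (1) and the right side of (3), for all `X`, hold, and for all
separated schemes `X` of finite type over `ℤ` the groups `H_j(X_et, ℤᶜ(0))` have finite rank and are zero for
`j > 2 dim X`. -/
theorem full (T : Theory.{v}) (hT : T.Standard) (hG : Geometry) (R : ℕ → ℕ → Prop)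
    (hR : ∀ t D : ℕ, ∃ d ≥ D, R d t) :
    List.TFAE [
      ∀ (C Y : Scheme.{0}) (c d : ℕ), Arithmetic C c → Rational C c Y d →
        AddGroup.FG (T.H Y d d (2 * d - c)),
      ∀ (C Y : Scheme.{0}) (c d : ℕ), Arithmetic C c → Rational C c Y d → T.Sample R Y d,
      ∀ (C Y : Scheme.{0}) (c d : ℕ), Arithmetic C c → Rational C c Y d → T.Q1 Y d,
      ∀ (C : Scheme.{0}) (c : ℕ), Arithmetic C c → IsProjective C → AddGroup.FG (T.H C c (c + 1) (c + 2)),
      ∀ X : Scheme.{0}, FiniteType X → T.Negative X] ∧
    ((∀ (Z : Scheme.{0}) (e : ℕ), Arithmetic Z e → IsProjective Z →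
      ((∀ (Y : Scheme.{0}) (d : ℕ), Rational Z e Y d → T.Sample R Y d) ↔ T.Negative Z)) ∧
    (∀ D : ℕ, (∀ e ≤ D, ∀ Z : Scheme.{0}, Arithmetic Z e →
        ∀ (Y : Scheme.{0}) (d : ℕ), Rational Z e Y d → T.Sample R Y d) ↔
      ∀ X : Scheme.{0}, FiniteType X → topologicalKrullDim X ≤ D → T.Negative X)) ∧
    (∀ (X : Scheme.{0}) (d : ℕ), Arithmetic X d →
      ((∀ N, T.Sample R (product N X) (d + N)) ↔ ∀ n ≥ d, T.Weight X d n)) ∧
    ((∀ (Y : Scheme.{0}) (d : ℕ), Arithmetic Y d → T.Q1 Y d) →
      (∀ (X : Scheme.{0}) (d : ℕ), Arithmetic X d → ∀ n ≥ d, T.Weight X d n) ∧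
        ∀ X : Scheme.{0}, FiniteType X → T.Negative X ∧ T.Zero X) := by
  have hS := hT.toAS
  have h1 : (∀ (Y : Scheme.{0}) (d : ℕ), Arithmetic Y d → T.Sample R Y d) →
      ∀ (X : Scheme.{0}) (d : ℕ), Arithmetic X d → ∀ n ≥ d, T.Weight X d n := fun h X d hX n hn =>
    Helper83.AS.weight_of_sample hS hR hX (fun N => h _ _ (hG.product hX N)) hn
  have h2 : (∀ (Y : Scheme.{0}) (d : ℕ), Arithmetic Y d → T.Q1 Y d) →
      ∀ (Y : Scheme.{0}) (d : ℕ), Arithmetic Y d → T.Sample R Y d := fun h Y d hY t _ ht =>
    h Y d hY _ (by omega) (by omega)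
  -- a bound for the dimensions
  have h3 : ∀ D : ℕ, (∀ e ≤ D, ∀ Z : Scheme.{0}, Arithmetic Z e →
        ∀ (Y : Scheme.{0}) (d : ℕ), Rational Z e Y d → T.Sample R Y d) ↔
      ∀ X : Scheme.{0}, FiniteType X → topologicalKrullDim X ≤ D → T.Negative X := fun D =>
    ⟨fun h X hX hd => Helper83.AS.negative_of_sample hS hG.toGeometry hR h hX hd,
      fun h e he Z hZ Y d hY => Helper83.AS.sample_of_negative hS hZ hY
        ((Helper83.AS.negative_iff hS hZ.finiteType).1
          (h Z hZ.finiteType (hZ.dim.le.trans (by exact_mod_cast he))))⟩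
  refine ⟨?_, ⟨fun Z e hZ hZp => ?_, h3⟩,
    fun X d hX => ⟨fun h n hn => Helper83.AS.weight_of_sample hS hR hX h hn,
      Helper83.AS.sample_of_weight hS hX⟩,
    fun h => ⟨h1 (h2 h), fun X hX =>
      ⟨?_, Helper83.AS.zero_of_weight hS hG.toGeometry (fun Y d hY => h1 (h2 h) Y d hY d le_rfl) hX⟩⟩⟩
  · have h14 : (∀ (C Y : Scheme.{0}) (c d : ℕ), Arithmetic C c → Rational C c Y d →
        AddGroup.FG (T.H Y d d (2 * d - c))) →
        ∀ (C : Scheme.{0}) (c : ℕ), Arithmetic C c → IsProjective C →
          AddGroup.FG (T.H C c (c + 1) (c + 2)) := fun h C c hC hCp =>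
      (fg_H (by omega) (by ring)).2 (fg_centre hT hG hC hCp fun Y d hY _ => h C Y c d hC hY)
    have h45 : (∀ (C : Scheme.{0}) (c : ℕ), Arithmetic C c → IsProjective C →
        AddGroup.FG (T.H C c (c + 1) (c + 2))) → ∀ X : Scheme.{0}, FiniteType X → T.Negative X := fun h X hX =>
      negative_all hT hG (fun c C hC hCp => (fg_H (by omega) (by ring)).1 (h C c hC hCp)) hX
    have h53 : (∀ X : Scheme.{0}, FiniteType X → T.Negative X) →
        ∀ (C Y : Scheme.{0}) (c d : ℕ), Arithmetic C c → Rational C c Y d → T.Q1 Y d := by
      intro h C Y c d hC hY i hi0 hi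
      obtain ⟨t, ht⟩ := Int.eq_ofNat_of_zero_le (sub_nonneg.2 hi)
      have h1 := Helper83.AS.sample_of_negative hS (R := fun _ _ => True) hC hY
        ((Helper83.AS.negative_iff hS hC.finiteType).1 (h C hC.finiteType)) t trivial (by omega)
      exact (fg_H (by omega) (by omega)).2 ((fg_H (m := 0) (j := (t : ℤ)) (by omega) (by ring)).1 h1)
    have h31 : (∀ (C Y : Scheme.{0}) (c d : ℕ), Arithmetic C c → Rational C c Y d → T.Q1 Y d) →
        ∀ (C Y : Scheme.{0}) (c d : ℕ), Arithmetic C c → Rational C c Y d →
          AddGroup.FG (T.H Y d d (2 * d - c)) := by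
      intro h C Y c d hC hY
      have hcd : c ≤ d := by
        obtain ⟨M, -, -, rfl, hM, -⟩ := hY
        omega
      exact h C Y c d hC hY _ (by omega) (by omega)
    have h32 : (∀ (C Y : Scheme.{0}) (c d : ℕ), Arithmetic C c → Rational C c Y d → T.Q1 Y d) →
        ∀ (C Y : Scheme.{0}) (c d : ℕ), Arithmetic C c → Rational C c Y d → T.Sample R Y d :=
      fun h C Y c d hC hY t _ ht => h C Y c d hC hY _ (by omega) (by omega)
    have h25 : (∀ (C Y : Scheme.{0}) (c d : ℕ), Arithmetic C c → Rational C c Y d → T.Sample R Y d) →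
        ∀ X : Scheme.{0}, FiniteType X → T.Negative X := by
      intro h X hX
      obtain ⟨D, hD⟩ := hX.exists_dim
      exact (h3 D).1 (fun e _ Z hZ Y d hY => h Z Y e d hZ hY) X hX hD
    tfae_have 1 → 4 := h14
    tfae_have 4 → 5 := h45
    tfae_have 5 → 3 := h53
    tfae_have 3 → 1 := h31
    tfae_have 3 → 2 := h32
    tfae_have 2 → 5 := h25
    tfae_finish
  · exact ⟨fun h => (Helper83.AS.negative_iff hS hZ.finiteType).2
        (Helper83.AS.fg_of_sample hS hG.toGeometry hR hZ hZp h),
      fun h Y d hY => Helper83.AS.sample_of_negative hS hZ hY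
        ((Helper83.AS.negative_iff hS hZ.finiteType).1 h)⟩
  · obtain ⟨D, hD⟩ := hX.exists_dim
    refine Helper83.AS.negative_of_sample hS hG.toGeometry hR (D := D) ?_ hX hD
    rintro e _ Z hZ Y d ⟨M, i, f, rfl, he, hi, hf⟩
    exact h2 h Y (M + 1) (hG.blowup i f hi hZ he hf)

end Pool.Agent.Helper90.JC.AllSchemesFull
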