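import Pool.Agent.Helper2.CT.Main
import Pool.Agent.Helper2.CT.Six

/-!
# Twists by powers of the canonical bundle, and the Chern number `c_1 c_{n-1}`

Mathematical content. Let `X`, `Y` be derived equivalent smooth projective varieties of dimension
`n`. Let `V_m(X)` be the direct sum of the spaces `H^q(X, Ω^p ⊗ ω^m)`, where `ω` is the canonical
line bundle. By Riemann-Roch the alternating trace of the form degree `p` on `V_m(X)` is
`(n/2) c_n + m c_1 c_{n-1}`, an affine function of `m`.

Let `P`, `Q` be the kernels of the equivalence and of its inverse. The kernel `P` has an isomorphism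
`P → P ⊗ M`, where `M = Hom(p^* ω_X, q^* ω_Y)`. Its twisted Mukai vectors, with coefficients in the
powers of `M`, give isomorphisms `U_m : V_m(X) → V_m(Y)` which preserve `p - q`, and the twisted
Mukai vectors of `Q` give the inverses. If `U_m` were compatible with `p`, then the traces of `p`
would agree. In general, as the trace is cyclic, the trace on `V_m(Y)` is the trace on `V_m(X)` plus
the sum of the numbers `j F_j(m)`, where `F_j(m)` is the supertrace of the composition of the part
of `U_m` of bidegree `(j, j)` and the part of the inverse of bidegree `(-j, -j)`.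

The number `F_j(m)` is an intersection number on the `ℂ^* × ℂ^*`-bundle over `X × Y` on which both
kernels become complexes of sheaves with compact support: the degree of the product of the function
`r^m` and the class of an algebraic zero cycle. Here `r` is the quotient of the two coordinates. The
product of a function and the class of a point is the value in the point times the class. Hence
`F_j(m)` is a sum of exponential functions of `m`, and it does not contribute to the slope of the
affine function. Therefore `c_1 c_{n-1}` is the same for `X` and `Y`.

By the formula of Libgober and Wood `2 c_1 c_{n-1}` is a combination of the Hodge numbers. For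
`n = 5` this is the only relation which is missing in `HolomorphicTwoForms`, so all Hodge numbers
agree. For `n = 6` only `h^{0,3}` and `h^{1,2}` remain. They agree, for instance, if the cohomology
of odd degree vanishes, or if there is no primitive cohomology of degree three and no primitive
class of type `(2,2)`.
-/

set_option autoImplicit false

namespace Pool.Agent.Helper90.JC.CanonicalTwistsFull

open Pool.Agent.Hodge81 Pool.Agent.Twists2

universe u v w

/-- The first Chern number `c_1 c_{n-1}` is a derived invariant: it is the same for `X` and `Y` as
soon as there are canonical twists and a twisted equivalence. Without this hypothesis: for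
`n = 5` all Hodge numbers agree if and only if this Chern number agrees, and for `n = 6` its
invariance leaves only `h^{0,3}` and `h^{1,2}`. -/
theorem full {n : ℕ} {A B : Type*} [Ring A] [Algebra ℂ A] [FiniteDimensional ℂ A]
    [Ring B] [Algebra ℂ B] [FiniteDimensional ℂ B] (X : HodgeRing n A) (Y : HodgeRing n B) :
    (∀ {V : ℤ → Type v} {W : ℤ → Type w} [∀ m, AddCommGroup (V m)] [∀ m, Module ℂ (V m)]
      [∀ m, FiniteDimensional ℂ (V m)] [∀ m, AddCommGroup (W m)] [∀ m, Module ℂ (W m)]
      [∀ m, FiniteDimensional ℂ (W m)] {R L S : Type u} [CommRing R] [Algebra ℂ R]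
      [AddCommGroup L] [Module ℂ L] [Module R L] [IsScalarTower ℂ R L]
      (CX : CanonicalTwists X V) (CY : CanonicalTwists Y W),
      TwistedEquivalence CX.grading CY.grading R L S → X.chernNumber = Y.chernNumber) ∧
    ∀ (P : PolyvectorAction X) (Q : PolyvectorAction Y) (phi : A ≃ₗ[ℂ] B),
      IsHochschildIso P Q phi → IsMukaiIsometry X Y phi →
        (n = 5 → ((∀ p q, X.h p q = Y.h p q) ↔ X.chernNumber = Y.chernNumber)) ∧
        (n = 6 → X.chernNumber = Y.chernNumber →
          (Y.h 1 1 : ℤ) - X.h 1 1 = ((Y.h 0 3 : ℤ) - X.h 0 3) + ((Y.h 1 2 : ℤ) - X.h 1 2) ∧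
          (X.h 0 3 = Y.h 0 3 → X.h 1 2 = Y.h 1 2 → ∀ p q, X.h p q = Y.h p q)) := by
  refine ⟨fun CX CY E => chernNumber_eq CX CY E, fun P Q phi h1 h2 => ?_⟩
  obtain ⟨f1, f2, -, f3⟩ := forms_main X Y P Q phi h1
  refine ⟨fun h5 => ⟨fun h => ?_, ((f3 h2).2.2 h5).2⟩, ?_⟩
  · unfold HodgeRing.chernNumber
    simp only [h]
  · rintro rfl h
    exact ⟨(h2.six_rel f1 f2 h).1, (h2.six_rel f1 f2 h).2.1⟩

end Pool.Agent.Helper90.JC.CanonicalTwistsFull
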