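import Pool.Agent.Helper87.RF.Total

/-!
# Holomorphic forms on derived equivalent varieties

Mathematical content. Let `X`, `Y` be smooth projective varieties of dimension `n`. A derived
equivalence `D(X) ≅ D(Y)` induces an isomorphism `phi` of their complex cohomologies which commutes
with complex conjugation, maps the image `T^q` of `⨁_{a+b=q} H^a(Λ^b T_X)` in `End H^*(X, ℂ)`
(Hochschild cohomology acting by contraction) onto the same space for `Y`, maps the columns
`⨁_{p-q=i} H^{p,q}` onto columns and is an isometry for the Mukai pairings.

Forms of degree at most two, and the algebra which they generate: if `f` in `T^q`, `q = 1, 2`,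
commutes with its complex conjugate and kills `exp (i omega)`, then `f = 0`. For `q = 2`: `f` kills
`exp (- i omega)` too, hence it preserves two opposite filtrations of `H^*(X, ℂ)`, it is normal for
the sesquilinear form `∫ v^∨ conj w`, which is definite on the pieces by the Hodge-Riemann
relations, and nilpotent, so it vanishes.

Families. Let `f : X_0 → B_0` and `g : Y_0 → B_0` be smooth projective families, with fibres `X`,
`Y` of dimension `n` over the base point, and let `P` be an equivalence over `B_0`. It
induces an equivalence of the fibres, and `phi` commutes with the monodromy. Let `W_j` be the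
smallest subvariation of Hodge structure of the cohomology of the fibres which contains `H^{0,j}`.
Then the variations `W_j` of both families are isomorphic

* for `j ≤ 2`, and whenever the `j`-forms are generated by one- and two-forms: multiplication by the
  lowest part of `phi (exp (i omega))`, followed by the transport along `phi`, embeds one into
  the other;
* for `j = n, n - 1`: `phi` respects the part of the total parity cut out by the columns;
* for `j = n - 2`: the columns of index at least `j` are the sum of a positive and of a negative
  definite part for the Mukai pairing, and the negative part consists of two copies of `W_j`; then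
  one cancels the squares.

If the total space `Z_0` of a family over `B_0` is open in a smooth projective variety `Z`, then
`H^{0,q}(Z)` is the part of type `(0,q)` of the lowest weight part `W_q H^q(Z_0)` (Deligne), and by
the Leray decomposition it is the sum over `j` of the same parts of `H^{q-j}(B_0, W_j)`. So
`h^{0,q}` agree for the total spaces, for all `q`, if the dimension `n` of the fibres is at most
five.

If the canonical class of `Z` is not numerically trivial, the support of the kernel of an
equivalence `D(Z) ≅ D(W)` generates such a pair of families, with fibres of smaller dimension.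
-/

set_option autoImplicit false

namespace Pool.Agent.Helper90.JC.HolomorphicFormsFull

open Pool.Agent.Hodge81 Module

universe u v w

theorem full {n : ℕ} {A B : Type u} [Ring A] [Algebra ℂ A] [FiniteDimensional ℂ A]
    [Ring B] [Algebra ℂ B] [FiniteDimensional ℂ B]
    (X : HodgeRing n A) (Y : HodgeRing n B) (P : PolyvectorAction X) (Q : PolyvectorAction Y)
    (phi : A ≃ₗ[ℂ] B) (hphi : IsHochschildIso P Q phi) :
    (∀ k, finrank ℂ (X.genPart k) = finrank ℂ (Y.genPart k)) ∧
    X.h 0 1 = Y.h 0 1 ∧ X.h 0 2 = Y.h 0 2 ∧
    (IsMukaiIsometry X Y phi →
      (∀ j, GoodDegree X Y j → X.h 0 j = Y.h 0 j) ∧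
      ((∀ j, X.h 0 j = Y.h 0 j) →
        ∀ p q, (n + q ≤ p + 4 ∨ n + p ≤ q + 4) → X.h p q = Y.h p q) ∧
      ∀ (Γ : Type v) [Group Γ] (M : Monodromy X Γ) (N : Monodromy Y Γ),
        (∀ g a, phi (M.act g a) = N.act g (phi a)) →
        (∀ j, GoodDegree X Y j → (M.formsRep j).Iso (N.formsRep j)) ∧
        ((∀ j, GoodDegree X Y j) →
          ∀ (m : ℕ) (C D : Type w) [Ring C] [Algebra ℂ C] [Ring D] [Algebra ℂ D]
            (Z : HodgeRing m C) (W : HodgeRing m D) (d : ℕ → HodgeRep.{u} Γ → ℕ),
            (∀ i R S, R.Iso S → d i R = d i S) →
            (∀ q, Z.h 0 q = ∑ j ∈ Finset.range (q + 1), d (q - j) (M.formsRep j)) →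
            (∀ q, W.h 0 q = ∑ j ∈ Finset.range (q + 1), d (q - j) (N.formsRep j)) →
            ∀ q, Z.h 0 q = W.h 0 q)) := by
  obtain ⟨h1, h2, h3, -⟩ := forms_main X Y P Q phi hphi
  refine ⟨h3, h1, h2, fun hM => ⟨fun j hj => forms_good hphi hM hj, corona hM, ?_⟩⟩
  intro Γ _ M N hg
  exact ⟨fun j hj => fibre_main hphi hM hg hj, fun hj m C D _ _ _ _ Z W d hd hZ hW q =>
    total_main hd hZ hW (fun j => fibre_main hphi hM hg (hj j)) q⟩

end Pool.Agent.Helper90.JC.HolomorphicFormsFull
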