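import Mathlib
import Pool.Agent.Helper75.Arith.Lemmas

/-!
# Arithmetic schemes of dimension at most three under dominant rational maps

The definitions are in `Pool/Agent/Helper75/Arith/Defs.lean`. The schemes are Mathlib's schemes;
`T.Expected X n i` is the conjecture for `Hⁱ(X_et, ℤ(n))`: this group is zero if `i < 0` and finitely generated if
`i ≥ 0`. For `n = dim X` and `0 ≤ i ≤ 2 n` this is Q1.

Proof. In dimension at most three a dominant rational map `X' ⇢ X` becomes a surjective morphism `Y ⟶ X`
after a tower `Y → X'` of blow-ups in regular centres. The centres of codimension at least two have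
dimension at most one, so the conjecture is known for them, and it passes from `X'` to `Y` by the blow-up
formula. If `A = Hⁱ(X_et, ℤ(n))` and `B = Hⁱ(Y_et, ℤ(n))`, the multiplication by the degree `m` of `Y ⟶ X` on `A`
factors through the finitely generated group `B`, and the kernel of `m` on `A` is finite: so `A` is finitely
generated.
-/

set_option autoImplicit false

open CategoryTheory AlgebraicGeometry

namespace Pool.Agent.Helper90.JC.ThreefoldsFull

open Pool.Agent.Helper75.Arith

universe v

/-- All schemes are regular, connected, proper over `ℤ`, of dimension at most three; `n ≥ dim X` and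
`i ≤ 2 n`.

(1) The conjecture, in particular Q1, holds for all `X` of dimension `N + dim C` dominated by `ℙ^N × C`, where
`dim C ≤ 1`.

(2) If there is a dominant rational map `X' ⇢ X`, `dim X' = dim X`, the conjecture for `Hⁱ(X'_et, ℤ(n))` implies the
conjecture for `Hⁱ(X_et, ℤ(n))`.

(3) The conjecture for `Hⁱ(X_et, ℤ(n))`, for all `X` of dimension `N + dim S` dominated by `ℙ^N × S`, is
equivalent to the conjecture for `Hⁱ⁻²ᵏ(S_et, ℤ(n - k))`, `0 ≤ k ≤ N`. -/
theorem full (hG : Geometry) (T : Cohomology.{v}) (hT : T.Standard) :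
    (∀ (C : Scheme.{0}) (c N : ℕ), c ≤ 1 → c + N ≤ 3 → Arithmetic C c →
      ∀ X : Scheme.{0}, Arithmetic X (c + N) → Dominates (product N C) X →
      ∀ n ≥ c + N, ∀ i : ℤ, i ≤ 2 * n → T.Expected X n i) ∧
    (∀ (X' X : Scheme.{0}) (d : ℕ), d ≤ 3 → Arithmetic X' d → Arithmetic X d → Dominates X' X →
      ∀ n ≥ d, ∀ i : ℤ, i ≤ 2 * n → T.Expected X' n i → T.Expected X n i) ∧
    ∀ (S : Scheme.{0}) (s N : ℕ), s + N ≤ 3 → Arithmetic S s →
      ∀ n ≥ s + N, ∀ i : ℤ, i ≤ 2 * n →
      ((∀ X : Scheme.{0}, Arithmetic X (s + N) → Dominates (product N S) X → T.Expected X n i) ↔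
        ∀ k ≤ N, T.Expected S (n - k) (i - 2 * (k : ℤ))) := by
  have h3 : ∀ (S : Scheme.{0}) (s N : ℕ), s + N ≤ 3 → Arithmetic S s →
      ∀ n ≥ s + N, ∀ i : ℤ, i ≤ 2 * n →
      ((∀ X : Scheme.{0}, Arithmetic X (s + N) → Dominates (product N S) X → T.Expected X n i) ↔
        ∀ k ≤ N, T.Expected S (n - k) (i - 2 * (k : ℤ))) := by
    intro S s N h hS n hn i hi
    have hP := hG.product hS N
    rw [← expected_product_iff hT hS hP hn]
    exact ⟨fun hw => hw _ hP (Dominates.refl _),
      fun hw X hX hdom => expected_of_dominates hT hG h hP hX hdom hn hi hw⟩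
  refine ⟨?_, fun X' X d hd hX' hX hdom n hn i hi hw => expected_of_dominates hT hG hd hX' hX hdom hn hi hw,
    h3⟩
  intro C c N hc h hC X hX hdom n hn i hi
  refine (h3 C c N h hC n hn i hi).2 (fun k hk => ?_) X hX hdom
  exact hT.curves hC hc _ (by omega) _ (by rw [Nat.cast_sub (by omega)]; omega)

end Pool.Agent.Helper90.JC.ThreefoldsFull
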